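import Pool.Agent.Y745.EW.Defs

/-!
# Separated points on the critical line
-/

set_option autoImplicit false

namespace Pool.Agent.Y288.EW

open Pool.Agent.Y745.EW

theorem t_SEPC : P_SEPC := by
  intro S d r t hd hr hre hsep
  classical
  set A := S.filter (fun s => |s.im - t| ≤ r) with hA
  have hcard : A.card ≤ (Finset.range (⌊2 * r / d⌋₊ + 1)).card := by
    refine Finset.card_le_card_of_injOn (fun s => ⌊(s.im - (t - r)) / d⌋₊) ?_ ?_
    · intro s hs
      have hs' : s ∈ A := hs
      rw [hA, Finset.mem_filter] at hs'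
      have h1 := abs_le.1 hs'.2
      rw [Finset.mem_coe, Finset.mem_range, Nat.lt_succ_iff]
      refine Nat.floor_mono ?_
      exact div_le_div_of_nonneg_right (by linarith) hd.le
    · intro s hs s' hs' heq
      have hs1 : s ∈ A := hs
      have hs1' : s' ∈ A := hs'
      rw [hA, Finset.mem_filter] at hs1 hs1'
      by_contra hne
      have h1 := abs_le.1 hs1.2
      have h1' := abs_le.1 hs1'.2
      have hx : 0 ≤ (s.im - (t - r)) / d := div_nonneg (by linarith) hd.le
      have hx' : 0 ≤ (s'.im - (t - r)) / d := div_nonneg (by linarith) hd.le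
      have e1 := Nat.floor_le hx
      have e2 := Nat.lt_floor_add_one ((s.im - (t - r)) / d)
      have e3 := Nat.floor_le hx'
      have e4 := Nat.lt_floor_add_one ((s'.im - (t - r)) / d)
      have heq' : (⌊(s.im - (t - r)) / d⌋₊ : ℝ) = (⌊(s'.im - (t - r)) / d⌋₊ : ℝ) := by
        exact_mod_cast heq
      have h2 : |(s.im - s'.im) / d| < 1 := by
        have h3 : (s.im - s'.im) / d = (s.im - (t - r)) / d - (s'.im - (t - r)) / d := by ring
        rw [h3, abs_lt]
        constructor <;> linarith
      have h3 : |s.im - s'.im| < d := by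
        rw [abs_div, abs_of_pos hd, div_lt_one hd] at h2
        exact h2
      have h4 := hsep s hs1.1 s' hs1'.1 (Ne.symm hne)
      have h5 : s - s' = ((s.im - s'.im : ℝ) : ℂ) * Complex.I := by
        apply Complex.ext
        · simp [hre s hs1.1, hre s' hs1'.1]
        · simp
      rw [h5, norm_mul, Complex.norm_I, mul_one, Complex.norm_real, Real.norm_eq_abs] at h4
      linarith
  rw [Finset.card_range] at hcard
  have h1 : (A.card : ℝ) ≤ (⌊2 * r / d⌋₊ : ℝ) + 1 := by exact_mod_cast hcard
  have h2 : (⌊2 * r / d⌋₊ : ℝ) ≤ 2 * r / d := Nat.floor_le (by positivity)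
  have h3 : (((S.filter (fun s => |s.im - t| ≤ r)).card : ℕ) : ℝ) = (A.card : ℝ) := by
    rw [hA]
  convert (h1.trans (add_le_add h2 le_rfl)) using 2

end Pool.Agent.Y288.EW
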